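import Pool.Agent.N931.PN.Stm3

/-!
Project PN (helper931), part CVX: powers of the correlation.
-/

set_option autoImplicit false

namespace Pool.Agent.N187.PN.Cvx

open Finset Pool.Agent.N931.PN

/-- convexity with weights -/
lemma jensen {ι : Type*} (s : Finset ι) (w z : ι → ℝ) (hw : ∀ i ∈ s, 0 ≤ w i)
    (hz : ∀ i ∈ s, 0 ≤ z i) {M : ℕ} (hM : 1 ≤ M) :
    (∑ i ∈ s, w i * z i) ^ M ≤ (∑ i ∈ s, w i * z i ^ M) * (∑ i ∈ s, w i) ^ (M - 1) := by
  set W : ℝ := ∑ i ∈ s, w i with hW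
  have hW0 : 0 ≤ W := Finset.sum_nonneg hw
  rcases hW0.eq_or_lt with h | h
  · have h0 : ∀ i ∈ s, w i = 0 := (Finset.sum_eq_zero_iff_of_nonneg hw).1 (hW ▸ h.symm)
    have h1 : ∑ i ∈ s, w i * z i = 0 := Finset.sum_eq_zero fun i hi => by rw [h0 i hi, zero_mul]
    rw [h1, zero_pow (by omega)]
    exact mul_nonneg (Finset.sum_nonneg fun i hi => mul_nonneg (hw i hi) (pow_nonneg (hz i hi) _))
      (pow_nonneg hW0 _)
  · have h1 := Real.pow_arith_mean_le_arith_mean_pow s (fun i => w i / W) z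
      (fun i hi => div_nonneg (hw i hi) hW0)
      (by rw [← Finset.sum_div, ← hW, div_self h.ne']) hz M
    have h2 : ∑ i ∈ s, w i / W * z i = (∑ i ∈ s, w i * z i) / W := by
      rw [Finset.sum_div]
      exact Finset.sum_congr rfl fun i _ => by ring
    have h3 : ∑ i ∈ s, w i / W * z i ^ M = (∑ i ∈ s, w i * z i ^ M) / W := by
      rw [Finset.sum_div]
      exact Finset.sum_congr rfl fun i _ => by ring
    rw [h2, h3, div_pow, div_le_div_iff₀ (by positivity) h] at h1
    obtain ⟨k, rfl⟩ := Nat.exists_eq_add_of_le' hM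
    rw [Nat.add_sub_cancel]
    rw [pow_succ W k, ← mul_assoc] at h1
    exact le_of_mul_le_mul_right h1 h

theorem main : S_CVX := by
  intro S f x M hx0 hx1 hM
  have e1 : ∀ T : Finset H974.Edg, (x ^ M) ^ T.card = (x ^ T.card) ^ M := fun T => by
    rw [← pow_mul, ← pow_mul, mul_comm]
  unfold WT
  simp only [one_pow, mul_one, e1]
  constructor
  · exact jensen _ _ _ (fun T _ => sq_nonneg _) (fun T _ => pow_nonneg hx0 _) hM
  · rw [← Finset.sum_sub_distrib, ← Finset.sum_sub_distrib, Finset.mul_sum]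
    refine Finset.sum_le_sum fun T _ => ?_
    have hy0 : 0 ≤ x ^ T.card := pow_nonneg hx0 _
    have h1 := one_add_mul_le_pow (a := x ^ T.card - 1) (by linarith) M
    rw [add_sub_cancel] at h1
    have h2 := sq_nonneg (H389NS.wal S f T)
    nlinarith

end Pool.Agent.N187.PN.Cvx
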